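import Pool.Agent.H94.LP3.H74.BP.Red
import Pool.Agent.H94.LP3.H74.CT.Slow_1
import Pool.Agent.H94.LP3.M17
import Pool.Agent.H94.LP3.M31

/-!
# Large points imposing independent conditions with a margin
-/

namespace Pool.Agent.H74.KV

open Finset Pool.Agent.H18.Cub Pool.Agent.H18.Pr Pool.Agent.H18.Fat Pool.Agent.H18.Ub Pool.Agent.H18.Nef Pool.Agent.H74.BP

/-- The large points impose independent conditions with a margin. -/
theorem of_exact (r M : ℕ) (hr : 2 ≤ r) (hM : 1 ≤ M) (k d μ : ℕ) (m : Fin k → ℕ)
    (J : Finset (Fin k)) (hμ : ∀ i, i ∉ J → m i ≤ μ) (hFd : 300 * r * M ^ (r + 4) ≤ d)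
    (hex : ∀ j, d ≤ j + 300 * r * M ^ (r + 4) → Exact r j m J)
    (hor : μ ≤ M ∨
      (300 * r * M ^ (r + 4) + μ ≤ d ∧
        ∑ i ∈ univ.filter (fun i => i ∈ J ∨ M < m i), (m i + r - 1).choose r ≤
          (d - 300 * r * M ^ (r + 4) - μ + r).choose r) ∨
      (d + μ - 1 + r).choose r ≤
        ∑ i ∈ univ.filter (fun i => i ∈ J ∨ M < m i), (m i + r - 1).choose r) :
    ForGeneralPoints r k fun p => ImposesMaximalConditions r d p m := by
  classical
  obtain ⟨s, rfl⟩ : ∃ s, r = s + 2 := ⟨r - 2, by omega⟩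
  set F := 300 * (s + 2) * M ^ (s + 2 + 4) with hF
  have hT : ∑ i ∈ univ.filter (fun i => i ∈ J ∨ M < m i), (m i + (s + 2) - 1).choose (s + 2) =
      ∑ i ∈ J, (m i + (s + 2) - 1).choose (s + 2) +
        BP.len (s + 2) m (univ.filter fun i => i ∉ J ∧ M < m i) := by
    unfold BP.len
    rw [← sum_union]
    · refine sum_congr ?_ fun i _ => rfl
      ext i
      rw [mem_filter, mem_union, mem_filter]
      have := mem_univ i
      tauto
    · rw [disjoint_left]
      intro i hi1 hi2
      exact (mem_filter.1 hi2).2.1 hi1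
  have hzero : μ ≤ M → BP.len (s + 2) m (univ.filter fun i => i ∉ J ∧ M < m i) = 0 := by
    intro h
    unfold BP.len
    rw [filter_eq_empty_iff.2, sum_empty]
    intro i _ hi
    have := hμ i hi.1
    omega
  have himp : ForGeneralPoints (s + 2) k fun p =>
      ImposesMaximalConditions (s + 2) d p fun i => if i ∈ J then m i else 0 :=
    imposes_of_exact (by omega) m J (hex d (by omega))
  have hexF : F ≤ d ∧ ((generalDim (s + 2) (d - F) fun i => if i ∈ J then m i else 0 : ℕ) : ℤ) =
      ((d - F + (s + 2)).choose (s + 2) : ℤ) -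
        ∑ i ∈ J, ((m i + (s + 2) - 1).choose (s + 2) : ℤ) := by
    refine ⟨hFd, ?_⟩
    have h1 := hex (d - F) (by omega)
    unfold Exact at h1
    have h2 : (((generalDim (s + 2) (d - F) fun i => if i ∈ J then m i else 0) +
        ∑ i ∈ J, (m i + (s + 2) - 1).choose (s + 2) : ℕ) : ℤ) =
        (((d - F + (s + 2)).choose (s + 2) : ℕ) : ℤ) := by rw [h1]
    push_cast at h2
    linarith
  rcases hor with hμM | ⟨hFμ, hor⟩ | hor
  · exact imposes_of_max (by omega) m J (max_slow (s + 2) M hr hM k d μ m J hμ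
      (fun j => generalDim (s + 2) j fun i => if i ∈ J then m i else 0) (fun _ => rfl)
      (Or.inl (hzero hμM)) (Or.inr hexF)) himp
  · refine imposes_of_max (by omega) m J (max_slow (s + 2) M hr hM k d μ m J hμ
      (fun j => generalDim (s + 2) j fun i => if i ∈ J then m i else 0) (fun _ => rfl)
      (Or.inr ⟨d - F - μ, by omega, ?_⟩) (Or.inr hexF)) himp
    have hge := Pool.Agent.H74.CT.dim_ge s (d - F - μ) k m J
    rw [hT] at hor
    omega
  · -- too many conditions
    rcases Nat.eq_zero_or_pos μ with h0 | h0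
    · exact imposes_of_max (by omega) m J (max_slow (s + 2) M hr hM k d μ m J hμ
        (fun j => generalDim (s + 2) j fun i => if i ∈ J then m i else 0) (fun _ => rfl)
        (Or.inl (hzero (by omega))) (Or.inr hexF)) himp
    · refine imposes_of_zero (by omega) m ?_
      have hJdim := hex (d + μ - 1) (by omega)
      unfold Exact at hJdim
      have hlenS : BP.len (s + 2) m (univ.filter fun i => i ∉ J ∧ M < m i) ≤
          BP.len (s + 2) m (univ.filter fun i => i ∉ J) := by
        unfold BP.len
        refine sum_le_sum_of_subset fun i hi => ?_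
        rw [mem_filter] at hi ⊢
        exact ⟨hi.1, hi.2.1⟩
      rw [hT] at hor
      have hS : (generalDim (s + 2) (d + μ - 1) fun i => if i ∈ J then m i else 0) ≤
          BP.len (s + 2) m (univ.filter fun i => i ∉ J) := by omega
      have hmax := max_elem (s + 2) μ hr k d m J hμ (Or.inr ⟨⟨d + μ - 1, by omega, hS⟩, h0⟩)
      have hle : (generalDim (s + 2) d fun i => if i ∈ J then m i else 0) ≤
          generalDim (s + 2) (d + μ - 1) fun i => if i ∈ J then m i else 0 :=
        generalDim_deg (fun i => if i ∈ J then m i else 0) (by omega)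
      obtain ⟨p, hp1, hp2⟩ := Pool.Agent.H18.Cub.exists_of_general
        (hmax.and (generalDim_spec (s + 2) d m))
      rw [hp2, max_eq_left (by omega)] at hp1
      exact_mod_cast hp1

end Pool.Agent.H74.KV
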