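import Pool.Agent.H94.LP3.H18.Pr.CremR
import Pool.Agent.H94.LP3.M15
import Pool.Agent.H94.LP3.M18

/-!
# Affine points in general position, exact multiplicities, further conditions
-/

namespace Pool.Agent.H74.KV

open MvPolynomial Pool.Agent.H18.Fat Pool.Agent.H18.Ub Pool.Agent.H22.LU Pool.Agent.H74.CT

theorem fat_scale {r d : ℕ} {ι : Type*} (p : ι → Fin (r + 1) → ℂ) (m : ι → ℕ) (c : ι → ℂ)
    (hc : ∀ i, c i ≠ 0) : fatForms r d (fun i => c i • p i) m = fatForms r d p m := by
  ext F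
  constructor
  · intro hF
    refine ⟨hF.1, fun i => ?_⟩
    have h1 := Pool.Agent.H18.Ua.vanishes_smul F d hF.1 (c i • p i) (c i)⁻¹ (inv_ne_zero (hc i))
      (m i) (hF.2 i)
    rwa [smul_smul, inv_mul_cancel₀ (hc i), one_smul] at h1
  · intro hF
    exact ⟨hF.1, fun i => Pool.Agent.H18.Ua.vanishes_smul F d hF.1 (p i) (c i) (hc i) (m i)
      (hF.2 i)⟩

/-- The points and the classes up to `D` are general. -/
structure Good (n D : ℕ) (p : Fin n → Fin (2 + 1) → ℂ) : Prop where
  one : ∀ i, p i 0 = 1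
  inj : Function.Injective p
  dim : ∀ d ≤ D, ∀ m : Fin n → ℕ, (∀ i, m i ≤ D) →
    Module.finrank ℂ (fatForms 2 d p m) = generalDim 2 d m

theorem exists_good (n D : ℕ) : ∃ p, Good n D p := by
  classical
  have h1 : ForGeneralPoints 2 n fun p => ∀ x ∈ (Finset.range (D + 1)) ×ˢ
      (Fintype.piFinset fun _ : Fin n => Finset.range (D + 1)),
      Module.finrank ℂ (fatForms 2 x.1 p x.2) = generalDim 2 x.1 x.2 :=
    general_all _ fun x _ => generalDim_spec 2 x.1 x.2
  have h2 : ForGeneralPoints 2 n fun p => ∀ x ∈ (Finset.univ : Finset (Fin n × Fin n)).filter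
      (fun x => x.1 ≠ x.2), ∃ L : MvPolynomial (Fin (1 + 1 + 1)) ℂ,
        L.IsHomogeneous 1 ∧ VanishesToOrder L (p x.1) 1 ∧ ¬ VanishesToOrder L (p x.2) 1 :=
    general_all _ fun x hx => general_line (s := 1) (Finset.mem_filter.1 hx).2
  obtain ⟨p, hp1, hp2, hp0⟩ := Pool.Agent.H18.Cub.exists_of_general
    (h1.and (h2.and (Pool.Agent.H18.Pr.general_ne_zero 2 n)))
  refine ⟨fun i => (p i 0)⁻¹ • p i, ?_, ?_, ?_⟩
  · intro i
    simp [hp0 i]
  · intro i j hij
    by_contra hne
    obtain ⟨L, hL1, hL2, hL3⟩ := hp2 (i, j) (Finset.mem_filter.2 ⟨Finset.mem_univ _, hne⟩)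
    apply hL3
    have e1 := Pool.Agent.H18.Ua.vanishes_smul L 1 hL1 (p i) (p i 0)⁻¹ (inv_ne_zero (hp0 i)) 1 hL2
    dsimp only at hij
    rw [hij] at e1
    have e2 := Pool.Agent.H18.Ua.vanishes_smul L 1 hL1 _ (p j 0) (hp0 j) 1 e1
    rwa [smul_smul, mul_inv_cancel₀ (hp0 j), one_smul] at e2
  · intro d hd m hm
    rw [fat_scale p m _ fun i => inv_ne_zero (hp0 i)]
    exact hp1 (d, m) (Finset.mem_product.2 ⟨Finset.mem_range.2 (by
      dsimp only
      omega), Fintype.mem_piFinset.2 fun i => Finset.mem_range.2 (by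
      have := hm i
      dsimp only
      omega)⟩)

theorem Good.ne {n D : ℕ} {p : Fin n → Fin (2 + 1) → ℂ} (h : Good n D p) (i : Fin n) :
    p i 0 ≠ 0 := by
  rw [h.one]
  exact one_ne_zero

/-- The multiplicity of a form at a point. -/
theorem exists_mult {n e : ℕ} {F : MvPolynomial (Fin n) ℂ} (hF : F.IsHomogeneous e) (h0 : F ≠ 0)
    (q : Fin n → ℂ) : ∃ κ ≤ e, VanishesToOrder F q κ ∧ ¬ VanishesToOrder F q (κ + 1) := by
  classical
  have hex : ∃ k, ¬ VanishesToOrder F q (k + 1) :=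
    ⟨e, fun h => h0 (Pool.Agent.H18.Nef.eq_zero_of_vanishes F hF q (Nat.lt_succ_self e) h)⟩
  refine ⟨Nat.find hex, Nat.find_min' hex fun h =>
    h0 (Pool.Agent.H18.Nef.eq_zero_of_vanishes F hF q (Nat.lt_succ_self e) h), ?_,
    Nat.find_spec hex⟩
  rcases Nat.eq_zero_or_pos (Nat.find hex) with h | h
  · rw [h]
    exact vanishes_zero _ _
  · have h1 := Nat.find_min hex (Nat.sub_lt h one_pos)
    push Not at h1
    have h2 : Nat.find hex - 1 + 1 = Nat.find hex := by omega
    rwa [h2] at h1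

/-- Further conditions. -/
theorem raise {r d : ℕ} (hr : 1 ≤ r) {ι : Type*} [Fintype ι] (p : ι → Fin (r + 1) → ℂ)
    (hp : ∀ i, p i 0 ≠ 0) (b b' : ι → ℕ) (hb : ∀ i, b i ≤ b' i) :
    Module.finrank ℂ (fatForms r d p b) + ∑ i, (b i + r - 1).choose r ≤
      Module.finrank ℂ (fatForms r d p b') + ∑ i, (b' i + r - 1).choose r := by
  classical
  have i1 := fin_fatForms r d p b
  have i2 := fin_fatForms r d p b'
  set T := (Finset.univ : Finset (Cond r b')).filter fun x => ¬ (x.2.1 : Fin (r + 1) →₀ ℕ).degree < b x.1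
    with hT
  let f : fatForms r d p b →ₗ[ℂ] (T → ℂ) :=
    { toFun := fun F x => coeff (x.1.2.1 : Fin (r + 1) →₀ ℕ) (shift (p x.1.1) F.1)
      map_add' := fun F G => by
        funext x
        unfold shift
        simp
      map_smul' := fun c F => by
        funext x
        unfold shift
        simp }
  have hker : Module.finrank ℂ (LinearMap.ker f) ≤ Module.finrank ℂ (fatForms r d p b') := by
    let g : LinearMap.ker f →ₗ[ℂ] MvPolynomial (Fin (r + 1)) ℂ :=
      (fatForms r d p b).subtype.comp (LinearMap.ker f).subtype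
    have hg : Function.Injective g := Subtype.val_injective.comp Subtype.val_injective
    have hr' : LinearMap.range g ≤ fatForms r d p b' := by
      rintro _ ⟨G, rfl⟩
      refine ⟨G.1.2.1, fun i => ?_⟩
      have h1 := exists_toPoly G.1.2.1
      change VanishesToOrder G.1.1 (p i) (b' i)
      rw [← h1]
      refine vanishes_of_affine (hp i) _ fun β hβ0 hβ => ?_
      rw [h1]
      by_cases hlt : β.degree < b i
      · exact G.1.2.2 i β hlt
      · let x : Cond r b' := ⟨i, ⟨β, mem_aff.2 ⟨hβ0, hβ⟩⟩⟩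
        have hx : x ∈ T := by
          rw [hT, Finset.mem_filter]
          exact ⟨Finset.mem_univ _, hlt⟩
        exact congrFun (LinearMap.mem_ker.1 G.2) ⟨x, hx⟩
    rw [← LinearMap.finrank_range_of_inj hg]
    exact Submodule.finrank_mono hr'
  have h2 := LinearMap.finrank_range_add_finrank_ker f
  have h3 : Module.finrank ℂ (LinearMap.range f) ≤ T.card := by
    refine (Submodule.finrank_le _).trans ?_
    rw [Module.finrank_fintype_fun_eq_card, Fintype.card_coe]
  have h4 : T.card + Fintype.card (Cond r b) ≤ Fintype.card (Cond r b') := by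
    have h5 : Fintype.card (Cond r b) = ((Finset.univ : Finset (Cond r b')).filter fun x =>
        (x.2.1 : Fin (r + 1) →₀ ℕ).degree < b x.1).card := by
      rw [← Finset.card_univ]
      refine Finset.card_bij (fun x _ => ⟨x.1, ⟨x.2.1, mem_aff.2
        ⟨(mem_aff.1 x.2.2).1, lt_of_lt_of_le (mem_aff.1 x.2.2).2 (hb x.1)⟩⟩⟩) ?_ ?_ ?_
      · intro x _
        rw [Finset.mem_filter]
        exact ⟨Finset.mem_univ _, (mem_aff.1 x.2.2).2⟩
      · rintro ⟨i, β, hβ⟩ _ ⟨j, γ, hγ⟩ _ h
        simp only [Sigma.mk.injEq] at h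
        obtain ⟨rfl, h⟩ := h
        rw [heq_eq_eq, Subtype.mk.injEq] at h
        subst h
        rfl
      · rintro ⟨i, β, hβ⟩ hx
        rw [Finset.mem_filter] at hx
        exact ⟨⟨i, β, mem_aff.2 ⟨(mem_aff.1 hβ).1, hx.2⟩⟩, Finset.mem_univ _, rfl⟩
    rw [h5, ← Finset.card_univ, hT, Nat.add_comm]
    exact (Finset.card_filter_add_card_filter_not _).le
  rw [card_cond hr, card_cond hr] at h4
  omega

end Pool.Agent.H74.KV
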