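import Pool.Agent.H94.LP3.H74.BP.Nef
import Pool.Agent.H94.LP3.M50
import Pool.Agent.H94.LP3.M65

/-!
# Vanishing for nef classes, uniformly in the number of points
-/

namespace Pool.Agent.H74.KV

open Finset Pool.Agent.H18.Fat Pool.Agent.H18.Ub Pool.Agent.H22.LU Pool.Agent.H74.CT Pool.Agent.H74.BP Pool.Agent.H18.Nef

/-- Classes with bounded support. -/
theorem nef_exact_on (B : ℕ) (ε : ℝ) (hε : 0 < ε) : ∃ d₀ : ℕ, ∀ (n d a : ℕ) (m : Fin n → ℕ)
    (J : Finset (Fin n)), J.card ≤ B → (∀ i, i ∉ J → m i = 0) → d₀ ≤ d → NefC a m →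
    (a : ℝ) ≤ (1 - ε) * d →
    generalDim 2 d m + ∑ i, (m i + 2 - 1).choose 2 = (d + 2).choose 2 := by
  classical
  choose D hD using fun b : ℕ => nef_exact b ε hε
  refine ⟨∑ b ∈ range (B + 1), D b, fun n d a m J hJ hm hd hnef ha => ?_⟩
  obtain ⟨σ, hσ⟩ : ∃ σ : Fin J.card → Fin n, Function.Injective σ ∧ Set.range σ = (J : Set (Fin n)) :=
    ⟨fun x => (J.equivFin.symm x : Fin n), fun x y h =>
      J.equivFin.symm.injective (Subtype.ext h), by
      ext i
      constructor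
      · rintro ⟨x, rfl⟩
        exact (J.equivFin.symm x).2
      · intro hi
        exact ⟨J.equivFin ⟨i, hi⟩, by simp⟩⟩
  obtain ⟨hσi, hσr⟩ := hσ
  have hoff : ∀ i, i ∉ Set.range σ → m i = 0 := by
    intro i hi
    rw [hσr] at hi
    exact hm i hi
  have h1 := hD J.card d a (fun x => m (σ x)) ((Finset.single_le_sum (f := D)
    (fun _ _ => Nat.zero_le _) (mem_range.2 (by omega))).trans hd) ?_ ha
  · rw [generalDim_comp σ hσi m hoff] at h1
    rw [← h1]
    congr 1
    have h2 : ∑ x, (m (σ x) + 2 - 1).choose 2 =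
        ∑ i ∈ univ.image σ, (m i + 2 - 1).choose 2 := by
      rw [sum_image fun x _ y _ h => hσi h]
    rw [h2]
    refine (sum_subset (subset_univ _) fun i _ hi => ?_).symm
    rw [hoff i (by
      rintro ⟨x, hx⟩
      exact hi (mem_image.2 ⟨x, mem_univ x, hx⟩))]
    rfl
  · intro e k hk
    -- extend `k` by zero
    set K : Fin n → ℕ := fun i => if h : ∃ x, σ x = i then k h.choose else 0 with hK
    have hKσ : ∀ x, K (σ x) = k x := by
      intro x
      have h2 : ∃ y, σ y = σ x := ⟨x, rfl⟩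
      rw [hK]
      dsimp only
      rw [dif_pos h2]
      congr 1
      exact hσi h2.choose_spec
    have hK0 : ∀ i, i ∉ Set.range σ → K i = 0 := by
      intro i hi
      rw [hK]
      dsimp only
      rw [dif_neg (show ¬ ∃ x, σ x = i from hi)]
    have h2 : generalDim 2 e K = generalDim 2 e k := by
      rw [← generalDim_comp σ hσi K hK0]
      congr 1
      funext x
      exact hKσ x
    have h3 := hnef e K (by rw [h2]; exact hk)
    have h4 : ∑ i, m i * K i = ∑ x, m (σ x) * k x := by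
      have h5 : ∑ x, m (σ x) * k x = ∑ i ∈ univ.image σ, m i * K i := by
        rw [sum_image fun x _ y _ h => hσi h]
        exact sum_congr rfl fun x _ => by rw [hKσ]
      rw [h5]
      refine (sum_subset (subset_univ _) fun i _ hi => ?_).symm
      rw [hK0 i (by
        rintro ⟨x, hx⟩
        exact hi (mem_image.2 ⟨x, mem_univ x, hx⟩)), Nat.mul_zero]
    rw [h4] at h3
    exact h3

/-- Classes in the interior of the nef cone. -/
theorem nef_interior (ε : ℝ) (hε : 0 < ε) : ∃ d₀ : ℕ, ∀ (n d a : ℕ) (m : Fin n → ℕ), d₀ ≤ d →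
    NefC a m → (a : ℝ) ≤ (1 - ε) * d →
    ForGeneralPoints 2 n fun p => ImposesMaximalConditions 2 d p m := by
  classical
  obtain ⟨M, hM⟩ := exists_nat_ge (8 / ε)
  have hM0 : (0 : ℝ) < M := lt_of_lt_of_le (by positivity) hM
  have hM1 : 1 ≤ M := by exact_mod_cast hM0
  obtain ⟨d₀, hd₀⟩ := max_big 2 M le_rfl hM1 (ε / 4) (by positivity)
  obtain ⟨d₂, hd₂⟩ := nef_exact_on (⌈8 / ε⌉₊ ^ 2) ε hε
  obtain ⟨d₁, hd₁⟩ := exists_nat_ge (8 * M / ε + 1)
  refine ⟨d₀ + d₁ + d₂, fun n d a m hd hnef ha => ?_⟩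
  have hdd : (8 * M / ε + 1 : ℝ) ≤ d := hd₁.trans (by
    exact_mod_cast (by omega : d₁ ≤ d))
  have hdM : 8 * M / ε ≤ (d : ℝ) := by linarith only [hdd]
  have hd0 : (0 : ℝ) < d := by
    have : (0 : ℝ) ≤ 8 * M / ε := by positivity
    linarith only [hdd, this]
  have hdpos : 0 < d := by exact_mod_cast hd0
  have ha0 : (0 : ℝ) ≤ a := Nat.cast_nonneg a
  have hε1 : ε ≤ 1 := by
    by_contra hcon
    push Not at hcon
    nlinarith only [ha, hd0, hcon]
  have hsq : ∑ i, (m i : ℝ) ^ 2 ≤ (1 - ε) * d ^ 2 := by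
    have h1 : (∑ i, (m i : ℝ) ^ 2) ≤ (a : ℝ) ^ 2 := by exact_mod_cast nef_sq hnef
    have h2 : (a : ℝ) ^ 2 ≤ ((1 - ε) * d) ^ 2 := pow_le_pow_left₀ ha0 ha 2
    have h3 : ((1 - ε) * (d : ℝ)) ^ 2 ≤ (1 - ε) * d ^ 2 := by
      have h4 : (0 : ℝ) ≤ (1 - ε) * ε * d ^ 2 := by
        have : (0 : ℝ) ≤ 1 - ε := by linarith only [hε1]
        positivity
      nlinarith only [h4]
    linarith only [h1, h2, h3]
  set J := univ.filter fun i : Fin n => ε / 8 * d < (m i : ℝ) with hJdef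
  have hJset : {i : Fin n | ε / 8 * d < (m i : ℝ)} = (J : Set (Fin n)) := by
    ext i
    rw [hJdef, mem_coe, mem_filter]
    exact ⟨fun h => ⟨mem_univ i, h⟩, fun h => h.2⟩
  have hnJ : ∀ i, i ∉ J → (m i : ℝ) ≤ ε / 8 * d := by
    intro i hi
    by_contra hcon
    push Not at hcon
    exact hi (by
      rw [hJdef, mem_filter]
      exact ⟨mem_univ i, hcon⟩)
  have hmed : ∀ i ∈ med M m J, M < m i := by
    intro i hi
    unfold med at hi
    rcases mem_union.1 hi with hi | hi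
    · have h1 : ε / 8 * d < (m i : ℝ) := (mem_filter.1 hi).2
      have h2 : (M : ℝ) ≤ ε / 8 * d := by
        rw [div_le_iff₀ hε] at hdM
        linarith only [hdM]
      exact_mod_cast h2.trans_lt h1
    · exact (mem_filter.1 hi).2
  have hform := exists_form_of_sq hε hε1 hM hdpos hsq (med M m J) hmed
  obtain ⟨hmax, hcard⟩ := hd₀ n d m J (by omega) (fun i hi => by
    have := hnJ i hi
    linarith only [this]) ⟨_, Nat.floor_le (by
      have : (0 : ℝ) ≤ 1 - ε / 4 := by linarith only [hε1]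
      positivity), hform⟩
  have hcard' : J.card ≤ ⌈8 / ε⌉₊ ^ 2 := by
    have h1 : (2 / (ε / 4) : ℝ) = 8 / ε := by
      field_simp
      ring
    have h2 : ε / 4 / 2 = ε / 8 := by ring
    rw [h1, h2, hJset, Set.ncard_coe_finset] at hcard
    exact hcard
  have hexact := hd₂ n d a (fun i => if i ∈ J then m i else 0) J hcard' (fun i hi => if_neg hi)
    (by omega) (nef_on hnef J) ha
  refine hmax.mono fun p hp => ?_
  unfold ImposesMaximalConditions
  have h1 : ∑ i, (((if i ∈ J then m i else 0) + 2 - 1).choose 2) =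
      ∑ i ∈ J, ((m i + 2 - 1).choose 2) := by
    rw [← sum_subset (subset_univ J)]
    · exact sum_congr rfl fun i hi => by rw [if_pos hi]
    · intro i _ hi
      rw [if_neg hi]
      rfl
  have h2 : ∑ i, ((m i + 2 - 1).choose 2 : ℤ) = ∑ i ∈ J, ((m i + 2 - 1).choose 2 : ℤ) +
      (len 2 m (univ.filter fun i => i ∉ J) : ℤ) := by
    rw [len_cast, ← sum_filter_add_sum_filter_not univ (fun i => i ∈ J)
      (fun i => ((m i + 2 - 1).choose 2 : ℤ))]
    congr 1
    refine sum_congr ?_ fun _ _ => rfl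
    ext i
    simp
  rw [h1] at hexact
  have h3 : ((generalDim 2 d fun i => if i ∈ J then m i else 0 : ℕ) : ℤ) +
      ∑ i ∈ J, ((m i + 2 - 1).choose 2 : ℤ) = ((d + 2).choose 2 : ℤ) := by
    exact_mod_cast hexact
  rw [hp, h2]
  omega

/-- Every nef class is almost non-special. -/
theorem nef_almost (ε : ℝ) (hε : 0 < ε) : ∃ d₀ : ℕ, ∀ (n d : ℕ) (m : Fin n → ℕ), d₀ ≤ d →
    NefC d m → (generalDim 2 d m : ℝ) ≤
      max 0 (((d + 2).choose 2 : ℝ) - ∑ i, ((m i + 2 - 1).choose 2 : ℝ)) + ε * d ^ 2 := by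
  classical
  set δ : ℝ := min ε 1 / 8 with hδ
  have hδpos : 0 < δ := by
    have : 0 < min ε 1 := lt_min hε one_pos
    positivity
  have hδε : δ ≤ ε / 8 := by
    have := min_le_left ε 1
    linarith
  have hδ1 : δ ≤ 1 / 8 := by
    have := min_le_right ε 1
    linarith only [hδ, this]
  obtain ⟨d₀, hd₀⟩ := nef_interior (δ / 4) (by positivity)
  obtain ⟨d₁, hd₁⟩ := exists_nat_ge (4 / δ)
  refine ⟨d₀ + d₁ + 1, fun n d m hd hnef => ?_⟩
  have hdd : (4 / δ : ℝ) ≤ d := hd₁.trans (by exact_mod_cast (by omega : d₁ ≤ d))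
  have hδd : 4 ≤ δ * d := by
    rw [div_le_iff₀ hδpos] at hdd
    linarith only [hdd]
  have hd0 : (1 : ℝ) ≤ d := by exact_mod_cast (by omega : 1 ≤ d)
  set t := ⌊δ * (d : ℝ)⌋₊ with ht
  have ht1 : (t : ℝ) ≤ δ * d := Nat.floor_le (by positivity)
  have ht2 : δ * (d : ℝ) < t + 1 := Nat.lt_floor_add_one _
  have h1 := hd₀ n (d + t) d m (by omega) hnef (by
    push_cast
    have h2 : δ / 4 * (t : ℝ) ≤ δ / 4 * (δ * d) := mul_le_mul_of_nonneg_left ht1 (by positivity)
    have h3 : δ / 4 * (δ * (d : ℝ)) ≤ 1 / 8 * (δ * d) := by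
      have : δ / 4 ≤ 1 / 8 := by linarith only [hδpos, hδ1]
      exact mul_le_mul_of_nonneg_right this (by positivity)
    nlinarith only [hδpos, hδ1, hδd, ht2, h2, h3])
  obtain ⟨p, hp1, hp2, hp3⟩ := Pool.Agent.H18.Cub.exists_of_general
    (h1.and ((generalDim_spec 2 (d + t) m).and (generalDim_spec 2 d m)))
  unfold ImposesMaximalConditions at hp1
  rw [hp2] at hp1
  have h2 : generalDim 2 d m ≤ generalDim 2 (d + t) m :=
    generalDim_deg (r := 2) m (Nat.le_add_right d t)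
  have h3 : (generalDim 2 (d + t) m : ℝ) =
      max 0 (((d + t + 2).choose 2 : ℝ) - ∑ i, ((m i + 2 - 1).choose 2 : ℝ)) := by
    exact_mod_cast hp1
  have h4 : (generalDim 2 d m : ℝ) ≤ generalDim 2 (d + t) m := by exact_mod_cast h2
  have h5 : ((d + t + 2).choose 2 : ℝ) ≤ ((d + 2).choose 2 : ℝ) + ε * d ^ 2 := by
    have h6 : ∀ x : ℕ, (2 : ℝ) * ((x + 2).choose 2 : ℝ) = (x + 2) * (x + 1) := by
      intro x
      exact_mod_cast two_choose x
    have h7 := h6 (d + t)
    have h8 := h6 d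
    push_cast at h7
    have h9 : (t : ℝ) * t ≤ δ * d * (1 / 8 * d) := by
      have h10 : (t : ℝ) ≤ 1 / 8 * d := ht1.trans (mul_le_mul_of_nonneg_right hδ1 (by positivity))
      exact mul_le_mul ht1 h10 (by positivity) (by positivity)
    have h10 : (t : ℝ) * d ≤ δ * d * d := mul_le_mul_of_nonneg_right ht1 (by positivity)
    have h11 : (t : ℝ) * 1 ≤ δ * d * d := by
      calc (t : ℝ) * 1 ≤ t * d := mul_le_mul_of_nonneg_left hd0 (by positivity)
        _ ≤ _ := h10
    have h12 : δ * d * d ≤ ε / 8 * (d : ℝ) ^ 2 := by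
      have : δ * (d : ℝ) ^ 2 ≤ ε / 8 * (d : ℝ) ^ 2 :=
        mul_le_mul_of_nonneg_right hδε (by positivity)
      nlinarith only [this]
    nlinarith only [hδpos, hδ1, hδd, ht2, h8, h7, h9, h10, h11, h12]
  refine h4.trans (h3.le.trans ?_)
  refine max_le ?_ ?_
  · have : (0 : ℝ) ≤ ε * (d : ℝ) ^ 2 := by positivity
    exact add_nonneg (le_max_left _ _) this
  · have := le_max_right 0 (((d + 2).choose 2 : ℝ) - ∑ i, ((m i + 2 - 1).choose 2 : ℝ))
    linarith only [h5, this]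

end Pool.Agent.H74.KV
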