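import Pool.Agent.H94.LP3.H74.KV.Gen_1
import Pool.Agent.H94.LP3.H74.KV.Uni
import Pool.Agent.H94.LP3.M33

/-!
# The plane: large points forming a nef class with slack
-/

namespace Pool.Agent.H74.KV

open Finset Pool.Agent.H18.Cub Pool.Agent.H18.Pr Pool.Agent.H18.Fat Pool.Agent.H18.Ub Pool.Agent.H18.Nef Pool.Agent.H74.BP

/-- The large points form a nef class with slack. -/
theorem exact_of_nef (ε : ℝ) (hε : 0 < ε) (F : ℕ) : ∃ d₀ : ℕ, ∀ (n d a : ℕ) (m : Fin n → ℕ)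
    (J : Finset (Fin n)), d₀ ≤ d → (∀ i ∈ J, ε * d ≤ m i) →
    (NefC a fun i => if i ∈ J then m i else 0) → (a : ℝ) ≤ (1 - ε) * d →
    F ≤ d ∧ ∀ j, d ≤ j + F → Exact 2 j m J := by
  classical
  obtain ⟨d₀, hd₀⟩ := nef_exact_on ⌈1 / ε ^ 2⌉₊ (ε / 2) (by positivity)
  obtain ⟨d₁, hd₁⟩ := exists_nat_ge (2 * F / ε)
  refine ⟨d₀ + F + d₁ + 1, fun n d a m J hd hJ hnef ha => ⟨by omega, fun j hj => ?_⟩⟩
  have hd0 : (0 : ℝ) < d := by exact_mod_cast (by omega : 0 < d)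
  have ha0 : (0 : ℝ) ≤ a := Nat.cast_nonneg a
  have hε1 : ε ≤ 1 := by
    by_contra hcon
    push Not at hcon
    nlinarith
  have had : a ≤ d := by
    have : (a : ℝ) ≤ d := by nlinarith
    exact_mod_cast this
  have hcard := card_le_of_nef hε (by omega) hJ hnef had
  have hFd : (F : ℝ) ≤ ε / 2 * d := by
    have h1 : (2 * F / ε : ℝ) ≤ d := hd₁.trans (by exact_mod_cast (by omega : d₁ ≤ d))
    rw [div_le_iff₀ hε] at h1
    linarith
  have hjr : (d : ℝ) ≤ j + F := by exact_mod_cast hj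
  have h1 := hd₀ n j a (fun i => if i ∈ J then m i else 0) J hcard (fun i hi => if_neg hi)
    (by omega) hnef (by
      have h2 : (1 - ε / 2) * (d - ε / 2 * d) ≤ (1 - ε / 2) * (j : ℝ) :=
        mul_le_mul_of_nonneg_left (by linarith) (by linarith)
      have h3 : (1 - ε) * (d : ℝ) ≤ (1 - ε / 2) * (d - ε / 2 * d) := by
        have h4 : (1 - ε / 2) * ((d : ℝ) - ε / 2 * d) = (1 - ε) * d + ε ^ 2 / 4 * d := by ring
        rw [h4]
        have : (0 : ℝ) ≤ ε ^ 2 / 4 * d := by positivity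
        linarith
      linarith)
  unfold Exact
  have h2 : ∑ i, (((if i ∈ J then m i else 0) + 2 - 1).choose 2) =
      ∑ i ∈ J, ((m i + 2 - 1).choose 2) := by
    rw [← sum_subset (subset_univ J)]
    · exact sum_congr rfl fun i hi => by rw [if_pos hi]
    · intro i _ hi
      rw [if_neg hi]
      rfl
  rw [← h2]
  exact h1

/-- The plane: the large points form a nef class with slack. -/
theorem plane_of_nef (M : ℕ) (hM : 1 ≤ M) (ε : ℝ) (hε : 0 < ε) : ∃ d₀ : ℕ,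
    ∀ (k d μ a : ℕ) (m : Fin k → ℕ) (J : Finset (Fin k)), d₀ ≤ d → (∀ i ∈ J, ε * d ≤ m i) →
    (∀ i, i ∉ J → m i ≤ μ) → (NefC a fun i => if i ∈ J then m i else 0) →
    (a : ℝ) ≤ (1 - ε) * d → Off (300 * 2 * M ^ (2 + 4)) M d μ m J →
    ForGeneralPoints 2 k fun p => ImposesMaximalConditions 2 d p m := by
  obtain ⟨d₀, hd₀⟩ := exact_of_nef ε hε (300 * 2 * M ^ (2 + 4))
  refine ⟨d₀ + 1, fun k d μ a m J hd hJ hμ hnef ha hor => ?_⟩
  obtain ⟨h1, h2⟩ := hd₀ k d a m J (by omega) hJ hnef ha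
  refine of_exact 2 M le_rfl hM k d μ m J hμ h1 h2 ?_
  rcases hor with h | h | h
  · exact Or.inl h
  · exact Or.inr (Or.inl h)
  · refine Or.inr (Or.inr ?_)
    have h3 : d + μ - 1 + 2 = d + μ + 1 := by omega
    rw [h3]
    exact h

end Pool.Agent.H74.KV
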